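import Pool.Agent.H94.TF5

set_option autoImplicit false

namespace Pool.Agent.Results.MP_d10cfe_mp.NotMonotone
open Set MeasureTheory Pool.Agent.H94.TF

theorem result (γ : ℝ) (hγ : 0 < γ) :
    ∃ (m1 m2 : Measure (EuclideanSpace ℝ (Fin 3))) (R1 R2 : EuclideanSpace ℝ (Fin 3)) (a : ℝ),
    Nuc m1 ∧ Nuc m2 ∧ R1 0 = a ∧
    (∀ e : EuclideanSpace ℝ (Fin 3) ≃ₗᵢ[ℝ] EuclideanSpace ℝ (Fin 3), m1.map e = m1) ∧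
    (∃ K : Set (EuclideanSpace ℝ (Fin 3)), IsClosed K ∧ (∀ y ∈ K, a < y 0) ∧
      m2 {y | y + R2 ∉ K} = 0) ∧
    ∃ (l1 l2 : ℝ) (ρ1 ρ2 : EuclideanSpace ℝ (Fin 3) → ℝ) (x : EuclideanSpace ℝ (Fin 3)),
      0 < l1 ∧ l1 < l2 ∧ l2 ≤ m1.real univ + m2.real univ ∧
      IsTF γ (fun x => pot m1 (x - R1) + pot m2 (x - R2)) l1 ρ1 ∧
      IsTF γ (fun x => pot m1 (x - R1) + pot m2 (x - R2)) l2 ρ2 ∧ a < x 0 ∧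
      ρ2 x - ρ2 (mirror a x) < ρ1 x - ρ1 (mirror a x) :=
  main hγ

end Pool.Agent.Results.MP_d10cfe_mp.NotMonotone
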